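import Mathlib

namespace Pool.Agent.Results.MP_f1a2b2_co.Exists

open Finset

/-- `x` is the infinite concatenation `W 0 W 1 W 2 ⋯` -/
def IsConcat {A : Type} (W : ℕ → List A) (x : ℕ → A) : Prop :=
  ∀ (t r : ℕ) (h : r < (W t).length), x (∑ s ∈ range t, (W s).length + r) = (W t)[r]

/-- `x = U₀ V₀ U₁ V₁ ⋯ = U₀ U₁ ⋯ = V₀ V₁ ⋯` with nonempty blocks -/
def SelfShuffling {A : Type} (x : ℕ → A) : Prop :=
  ∃ U V : ℕ → List A, (∀ t, U t ≠ [] ∧ V t ≠ []) ∧
    IsConcat (fun t => U t ++ V t) x ∧ IsConcat U x ∧ IsConcat V x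

noncomputable def β : ℝ := (45 + √5) / 2

theorem s5 : √5 * √5 = 5 ∧ 0 ≤ √5 ∧ √5 ≤ 3 := by
  have h : √5 * √5 = 5 := Real.mul_self_sqrt (by norm_num)
  have := Real.sqrt_nonneg 5
  exact ⟨h, this, by nlinarith⟩

theorem norm_ne (m P : ℤ) (hm : m ≠ 0) : P ^ 2 - 45 * P * m + 505 * m ^ 2 ≠ 0 := fun h => by
  have hi : Irrational √5 := (by norm_num : Nat.Prime 5).irrational_sqrt
  have h1 : ((2 * P - 45 * m : ℤ) : ℝ) ^ 2 = (m * √5) ^ 2 := by
    have : ((P ^ 2 - 45 * P * m + 505 * m ^ 2 : ℤ) : ℝ) = 0 := by rw [h]; simp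
    push_cast at this ⊢
    linear_combination 4 * this - (m : ℝ) ^ 2 * s5.1
  rcases sq_eq_sq_iff_eq_or_eq_neg.1 h1 with h2 | h2
  · exact (hi.intCast_mul hm).ne_int _ h2.symm
  · exact (hi.intCast_mul hm).neg.ne_int _ h2.symm

theorem bad (m : ℕ) (P : ℤ) (hm : 0 < m) (he : |m * β - P| ≤ 2) :
    (|P ^ 2 - 45 * P * m + 505 * m ^ 2| : ℝ) ≤ |m * β - P| * (5 * m) := by
  have h1 : (P ^ 2 - 45 * P * m + 505 * m ^ 2 : ℝ) = (m * β - P) * (m * β - P - m * √5) := by
    unfold β; linear_combination (m : ℝ) ^ 2 / 4 * s5.1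
  rw [h1, abs_mul]
  refine mul_le_mul_of_nonneg_left ?_ (abs_nonneg _)
  have : (1 : ℝ) ≤ m := by exact_mod_cast hm
  have := mul_le_mul_of_nonneg_left s5.2.2 (Nat.cast_nonneg (α := ℝ) m)
  have := mul_nonneg (Nat.cast_nonneg (α := ℝ) m) s5.2.1
  rw [abs_le] at he ⊢
  constructor <;> linarith [he.1, he.2]

theorem bad2 (m : ℕ) (p : ℤ) (hm : 0 < m) (he : |m * β - 505 * p| ≤ 2) :
    505 ≤ |m * β - 505 * p| * (5 * m) := by
  have h := bad m (505 * p) hm (by push_cast; exact he)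
  have h0 := norm_ne m (505 * p) (by omega)
  have h1 : (505 : ℤ) ≤ |(505 * p) ^ 2 - 45 * (505 * p) * m + 505 * m ^ 2| :=
    Int.le_of_dvd (abs_pos.2 h0) ((dvd_abs _ _).2 ⟨505 * p ^ 2 - 45 * p * m + m ^ 2, by ring⟩)
  have h2 : (505 : ℝ) ≤ |((505 * p : ℤ) : ℝ) ^ 2 - 45 * (505 * p : ℤ) * m + 505 * m ^ 2| := by
    exact_mod_cast h1
  push_cast at h h2
  linarith

theorem cover (s L : ℕ) (hL : 0 < L) (v : ℝ) : ∃ r < L, ∃ z : ℤ,
    v ≤ (s + r : ℕ) * β - z ∧ (s + r : ℕ) * β - z < v + 7 / L := by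
  obtain ⟨q, h1, h2⟩ := Real.exists_rat_abs_sub_le_and_den_le β hL
  have hQ : (0 : ℝ) < q.den := by exact_mod_cast q.den_pos
  have hL' : (0 : ℝ) < L := by exact_mod_cast hL
  have hq : (q : ℝ) * q.den = q.num := by exact_mod_cast q.mul_den_eq_num
  have h3 : |q.den * β - q.num| ≤ 1 / L := by
    rw [← hq, mul_comm (q : ℝ), ← mul_sub, abs_mul, abs_of_pos hQ]
    refine (mul_le_mul_of_nonneg_left h1 hQ.le).trans ?_
    rw [mul_one_div, div_le_div_iff₀ (by positivity) hL']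
    nlinarith
  have hL1 : (1 : ℝ) ≤ L := by exact_mod_cast hL
  have h4 := bad q.den q.num q.den_pos (h3.trans ((div_le_one hL').2 hL1 |>.trans one_le_two))
  have h5 : (1 : ℝ) ≤ |(q.num : ℝ) ^ 2 - 45 * q.num * q.den + 505 * q.den ^ 2| := by
    exact_mod_cast Int.one_le_abs (norm_ne q.den q.num (by exact_mod_cast q.den_nz))
  have h6 : 1 / (q.den : ℝ) ≤ 5 / L := by
    have := h5.trans (h4.trans (mul_le_mul_of_nonneg_right h3 (by positivity)))
    rw [div_le_div_iff₀ hQ hL']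
    rw [one_div_mul_eq_div, le_div_iff₀ hL'] at this
    linarith
  set w := ⌈q.den * (v + 1 / L - s * β)⌉ with hw
  have w1 := Int.le_ceil (q.den * (v + 1 / L - s * β))
  have w2 := Int.ceil_lt_add_one (q.den * (v + 1 / L - s * β))
  rw [← hw] at w1 w2
  obtain ⟨a, b, hab⟩ : IsCoprime q.num (q.den : ℤ) := by
    rw [Int.isCoprime_iff_gcd_eq_one]; exact q.reduced
  have hQz : (0 : ℤ) < q.den := by exact_mod_cast q.den_pos
  obtain ⟨r, hr⟩ := Int.eq_ofNat_of_zero_le (Int.emod_nonneg (a * w) hQz.ne')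
  have r1 := Int.emod_lt_of_pos (a * w) hQz
  have r2 := Int.emod_add_mul_ediv (a * w) q.den
  refine ⟨r, by omega, -(b * w) - a * w / q.den * q.num, ?_⟩
  have e1 : (r : ℤ) * q.num = w + q.den * (-(b * w) - a * w / q.den * q.num) := by
    rw [← hr]; linear_combination q.num * r2 + w * hab
  have e2 : (r : ℝ) * q.num = w + q.den * ((-(b * w) - a * w / q.den * q.num : ℤ) : ℝ) := by
    exact_mod_cast e1
  generalize ((-(b * w) - a * w / q.den * q.num : ℤ) : ℝ) = z at *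
  have r3 : (r : ℝ) ≤ q.den := by exact_mod_cast (by omega : r ≤ q.den)
  have e3 : ((s + r : ℕ) : ℝ) * β - z = s * β + w / q.den + r / q.den * (q.den * β - q.num) := by
    push_cast; field_simp; linear_combination e2
  have e4 : |r / q.den * (q.den * β - q.num)| ≤ 1 / L := by
    rw [abs_mul, abs_of_nonneg (by positivity)]
    exact (mul_le_of_le_one_left (abs_nonneg _) ((div_le_one hQ).2 r3)).trans h3
  have e5 : v + 1 / L - s * β ≤ w / q.den := by rw [le_div_iff₀ hQ]; linarith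
  have e6 : w / q.den < v + 1 / L - s * β + 1 / q.den := by
    rw [div_lt_iff₀ hQ, add_mul, one_div_mul_cancel hQ.ne']; linarith
  have e7 : (7 : ℝ) / L = 5 / L + 1 / L + 1 / L := by ring
  rw [e3]
  rw [abs_le] at e4
  constructor <;> linarith [e4.1, e4.2]

noncomputable def x (n : ℕ) : ZMod 505 := (⌊n * β⌋ : ℤ)

theorem run (s L j : ℕ) (hL : 0 < L) (h : ∀ r < L, x (s + r + j) = x (s + r)) :
    ∃ p : ℤ, |j * β - 505 * p| ≤ 1 ∧ |j * β - 505 * p| * L ≤ 7 := by
  have h1 : ∀ r < L, ∃ p : ℤ, |j * β - 505 * p| < 1 ∧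
      ⌊(s + r : ℕ) * β + (j * β - 505 * p)⌋ = ⌊(s + r : ℕ) * β⌋ := fun r hr => by
    obtain ⟨p, hp⟩ := (ZMod.intCast_eq_intCast_iff_dvd_sub _ _ 505).1 (h r hr).symm
    have e : ⌊(s + r : ℕ) * β + (j * β - 505 * p)⌋ = ⌊(s + r : ℕ) * β⌋ := by
      rw [show (s + r : ℕ) * β + (j * β - 505 * p) = (s + r + j : ℕ) * β - ((505 * p : ℤ) : ℝ) by
        push_cast; ring, Int.floor_sub_intCast]
      push_cast at hp ⊢
      omega
    exact ⟨p, by simpa using Int.abs_sub_lt_one_of_floor_eq_floor e, e⟩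
  obtain ⟨p, hp, -⟩ := h1 0 hL
  have h2 : ∀ r < L, ⌊(s + r : ℕ) * β + (j * β - 505 * p)⌋ = ⌊(s + r : ℕ) * β⌋ := fun r hr => by
    obtain ⟨p', hp', e⟩ := h1 r hr
    have : |((p' - p : ℤ) : ℝ)| < 1 := by
      rw [abs_lt] at *
      push_cast
      constructor <;> linarith [hp.1, hp.2, hp'.1, hp'.2]
    have : p' - p = 0 := Int.abs_lt_one_iff.1 (by exact_mod_cast this)
    rwa [show p = p' by omega]
  refine ⟨p, hp.le, ?_⟩
  have hL' : (0 : ℝ) < L := by exact_mod_cast hL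
  generalize j * β - 505 * p = e at *
  rw [← le_div_iff₀ hL', abs_le]
  constructor
  · by_contra hh
    obtain ⟨r, hr, z, a1, a2⟩ := cover s L hL 0
    have b1 : z ≤ ⌊(s + r : ℕ) * β⌋ := Int.le_floor.2 (by linarith)
    have b2 : ⌊(s + r : ℕ) * β + e⌋ < z := Int.floor_lt.2 (by linarith)
    have := h2 r hr
    omega
  · by_contra hh
    obtain ⟨r, hr, z, a1, a2⟩ := cover s L hL (-e)
    have b1 : z ≤ ⌊(s + r : ℕ) * β + e⌋ := Int.le_floor.2 (by linarith)
    have b2 : ⌊(s + r : ℕ) * β⌋ < z := Int.floor_lt.2 (by linarith)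
    have := h2 r hr
    omega

theorem three {a b c m : ℕ} (ha : 0 < a) (hb : 0 < b) (hc : 0 < c)
    (h1 : ∃ p : ℤ, |m * β - 505 * p| ≤ 1 ∧ |m * β - 505 * p| * a ≤ 7)
    (h2 : ∃ p : ℤ, |(m + b : ℕ) * β - 505 * p| ≤ 1 ∧ |(m + b : ℕ) * β - 505 * p| * c ≤ 7)
    (h : b < 7 * a) : c < b := by
  obtain ⟨p, p1, p2⟩ := h1
  obtain ⟨q, q1, q2⟩ := h2
  have e : |b * β - 505 * (q - p : ℤ)| ≤ |(m + b : ℕ) * β - 505 * q| + |m * β - 505 * p| := by
    refine le_trans (le_of_eq ?_) (abs_sub _ _)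
    congr 1; push_cast; ring
  have := bad2 b (q - p) hb (by linarith)
  by_contra hh
  have c1 : (b : ℝ) ≤ c := by exact_mod_cast not_lt.1 hh
  have c2 : (b : ℝ) ≤ 7 * a := by exact_mod_cast h.le
  have d1 := mul_le_mul_of_nonneg_left c1 (abs_nonneg ((m + b : ℕ) * β - 505 * q))
  have d2 := mul_le_mul_of_nonneg_left c2 (abs_nonneg (m * β - 505 * p))
  have d3 := mul_le_mul_of_nonneg_right e (Nat.cast_nonneg (α := ℝ) b)
  nlinarith

theorem result : ∃ (k : ℕ) (x : ℕ → Fin k),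
    ∀ y ∈ closure (Set.range fun n : ℕ => fun i => x (i + n)), ¬ SelfShuffling y := by
  refine ⟨505, x, fun y hy ⟨U, V, hne, h0, hU, hV⟩ => ?_⟩
  have hw : ∀ s L j : ℕ, 0 < L → (∀ r < L, y (s + r + j) = y (s + r)) →
      ∃ p : ℤ, |j * β - 505 * p| ≤ 1 ∧ |j * β - 505 * p| * L ≤ 7 := fun s L j hL h => by
    have : IsOpen {z : ℕ → Fin 505 | ∀ i ∈ range (s + L + j), z i = y i} := by
      simp only [Set.ofPred_forall]
      exact isOpen_biInter_finset fun i _ =>
        (isOpen_discrete ({y i} : Set (Fin 505))).preimage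
          (continuous_apply (A := fun _ : ℕ => Fin 505) i)
    obtain ⟨_, h1, n, rfl⟩ := mem_closure_iff.1 hy _ this fun _ _ => rfl
    refine run (s + n) L j hL fun r hr => ?_
    have a1 := h1 (s + r + j) (mem_range.2 (by omega))
    have a2 := h1 (s + r) (mem_range.2 (by omega))
    simp only at a1 a2
    rw [show s + n + r + j = s + r + j + n by ring, show s + n + r = s + r + n by ring]
    exact a1.trans ((h r hr).trans a2.symm)
  let A : ℕ → ℕ := fun t => ∑ s ∈ range t, (U s).length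
  let B : ℕ → ℕ := fun t => ∑ s ∈ range t, (V s).length
  have pU : ∀ t, 0 < (U t).length := fun t => List.length_pos_iff.2 (hne t).1
  have pV : ∀ t, 0 < (V t).length := fun t => List.length_pos_iff.2 (hne t).2
  have hs : ∀ t, ∑ s ∈ range t, (U s ++ V s).length = A t + B t := fun t => by
    simp [A, B, sum_add_distrib]
  have rU := fun t => hw (A t) _ (B t) (pU t) fun r hr => by
    have := h0 t r (by simp; omega)
    rw [hs, List.getElem_append_left hr, ← hU t r hr] at this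
    rwa [add_right_comm]
  have rV := fun t => hw (B t) _ (A (t + 1)) (pV t) fun r hr => by
    have := h0 t ((U t).length + r) (by simp; omega)
    rw [hs, List.getElem_append_right (by omega)] at this
    simp only [add_tsub_cancel_left] at this
    rw [← hV t r hr] at this
    rwa [show B t + r + A (t + 1) = A t + B t + ((U t).length + r) by
      simp only [A, sum_range_succ]; ring]
  have key : ∀ n t, (V t).length = n → ¬ (V t).length < 7 * (U t).length := fun n => by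
    induction n using Nat.strong_induction_on with
    | _ n ih =>
      intro t ht h
      have a1 := three (pU t) (pV t) (pU (t + 1)) (rU t)
        (by simpa only [B, sum_range_succ] using rU (t + 1)) h
      have a2 := three (pV t) (pU (t + 1)) (pV (t + 1)) (rV t)
        (by simpa only [A, sum_range_succ] using rV (t + 1)) (by omega)
      exact ih _ (by omega) (t + 1) rfl (by omega)
  obtain ⟨p, p1, p2⟩ := rV 0
  have e : A (0 + 1) = (U 0).length := by simp [A]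
  rw [e] at p1 p2
  have a1 := bad2 _ p (pU 0) (by linarith)
  have a2 : (7 * (U 0).length : ℝ) ≤ (V 0).length := by
    exact_mod_cast not_lt.1 (key _ 0 rfl)
  have := mul_le_mul_of_nonneg_left a2 (abs_nonneg ((U 0).length * β - 505 * p))
  nlinarith

end Pool.Agent.Results.MP_f1a2b2_co.Exists
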